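import Pool.Agent.helper8.GD.Spec

/-!
# Project GD, module BV2: trivial bounds for `kp`
-/

set_option autoImplicit false

namespace GD

open Finset ArithmeticFunction

theorem BV2_card (m : ℕ) (hm : 0 < m) (S : Finset (DirichletCharacter ℂ m)) :
    (#S : ℝ) ≤ (Nat.totient m : ℝ) := by
  have : NeZero m := ⟨hm.ne'⟩
  have h := DirichletCharacter.card_eq_totient_of_hasEnoughRootsOfUnity ℂ m
  rw [Nat.card_eq_fintype_card] at h
  have h2 := Finset.card_le_univ S
  rw [h] at h2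
  exact_mod_cast h2

theorem BV2_avg (m : ℕ) (hm : 0 < m) (S : Finset (DirichletCharacter ℂ m))
    (F : DirichletCharacter ℂ m → ℂ) (B : ℝ) (hB : 0 ≤ B) (h : ∀ χ ∈ S, ‖F χ‖ ≤ B) :
    |(1 / (Nat.totient m : ℝ)) * (∑ χ ∈ S, F χ).re| ≤ B := by
  have hφ : (0 : ℝ) < Nat.totient m := by exact_mod_cast Nat.totient_pos.mpr hm
  rw [abs_mul, abs_of_pos (by positivity), one_div, inv_mul_le_iff₀ hφ]
  calc |(∑ χ ∈ S, F χ).re| ≤ ‖∑ χ ∈ S, F χ‖ := Complex.abs_re_le_norm _
    _ ≤ ∑ χ ∈ S, ‖F χ‖ := norm_sum_le _ _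
    _ ≤ ∑ χ ∈ S, B := sum_le_sum h
    _ = #S * B := by rw [sum_const, nsmul_eq_mul]
    _ ≤ _ := mul_le_mul_of_nonneg_right (BV2_card m hm S) hB

/-- sums of a non-principal character are at most the modulus. -/
theorem BV2_char_sum_le (r : ℕ) [NeZero r] (χ : DirichletCharacter ℂ r) (hχ : χ ≠ 1) (y : ℕ) :
    ‖∑ k ∈ Ioc 0 y, χ k‖ ≤ r := by
  have hr : 0 < r := Nat.pos_of_ne_zero (NeZero.ne r)
  have hper : ∀ y : ℕ, ∑ k ∈ Ioc 0 (y + r), χ k = ∑ k ∈ Ioc 0 y, χ k := by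
    intro y
    rw [← sum_Ioc_consecutive _ (Nat.zero_le y) (Nat.le_add_right y r)]
    have h1 : ∑ k ∈ Ioc y (y + r), χ (k : ZMod r) = ∑ x : ZMod r, χ x := by
      refine sum_bij (fun k _ => (k : ZMod r)) (fun _ _ => mem_univ _) ?_ ?_ (fun _ _ => rfl)
      · intro k hk k' hk' h
        rw [mem_Ioc] at hk hk'
        have h2 := (ZMod.natCast_eq_natCast_iff k k' r).mp h
        rcases le_total k k' with hle | hle
        · have h3 := (Nat.modEq_iff_dvd' hle).mp h2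
          have h4 := Nat.eq_zero_of_dvd_of_lt h3 (by omega)
          omega
        · have h3 := (Nat.modEq_iff_dvd' hle).mp h2.symm
          have h4 := Nat.eq_zero_of_dvd_of_lt h3 (by omega)
          omega
      · intro x _
        refine ⟨y + 1 + (x - ((y + 1 : ℕ) : ZMod r)).val, ?_, ?_⟩
        · rw [mem_Ioc]
          have := ZMod.val_lt (x - ((y + 1 : ℕ) : ZMod r))
          omega
        · rw [Nat.cast_add, ZMod.natCast_zmod_val]
          ring
    rw [h1, MulChar.sum_eq_zero_of_ne_one hχ, add_zero]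
  have hmul : ∀ t y : ℕ, ∑ k ∈ Ioc 0 (y + r * t), χ k = ∑ k ∈ Ioc 0 y, χ k := by
    intro t
    induction t with
    | zero => intro y; rw [mul_zero, add_zero]
    | succ t ih =>
      intro y
      rw [show y + r * (t + 1) = (y + r * t) + r by ring, hper, ih]
  have h1 : ∑ k ∈ Ioc 0 y, χ k = ∑ k ∈ Ioc 0 (y % r), χ k := by
    conv_lhs => rw [← Nat.mod_add_div y r]
    exact hmul _ _
  rw [h1]
  refine (norm_sum_le _ _).trans ?_
  have h2 : ∑ k ∈ Ioc 0 (y % r), ‖χ (k : ZMod r)‖ ≤ ∑ k ∈ Ioc 0 (y % r), (1 : ℝ) :=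
    sum_le_sum fun k _ => DirichletCharacter.norm_le_one χ _
  refine h2.trans ?_
  rw [sum_const, nsmul_eq_mul, mul_one, Nat.card_Ioc, Nat.sub_zero]
  exact_mod_cast (Nat.mod_lt y hr).le

theorem BV2_char_sum_mul_le (r : ℕ) [NeZero r] (χ : DirichletCharacter ℂ r) (hχ : χ ≠ 1)
    (d y : ℕ) : ‖∑ k ∈ Ioc 0 y, χ ((d * k : ℕ) : ZMod r)‖ ≤ r := by
  have h1 : ∑ k ∈ Ioc 0 y, χ ((d * k : ℕ) : ZMod r) = χ (d : ZMod r) * ∑ k ∈ Ioc 0 y, χ k := by
    rw [mul_sum]
    refine sum_congr rfl fun k _ => ?_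
    rw [Nat.cast_mul, map_mul]
  rw [h1, norm_mul]
  calc _ ≤ 1 * (r : ℝ) := mul_le_mul (DirichletCharacter.norm_le_one χ _)
        (BV2_char_sum_le r χ hχ y) (norm_nonneg _) zero_le_one
    _ = _ := one_mul _

theorem BV2_moebius (n : ℕ) :
    (∑ d ∈ n.divisors, (moebius d : ℂ)) = if n = 1 then 1 else 0 := by
  have h2 : (∑ d ∈ n.divisors, moebius d : ℤ) = if n = 1 then 1 else 0 := by
    have := congrArg (fun f : ArithmeticFunction ℤ => f n) moebius_mul_coe_zeta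
    simp only [coe_mul_zeta_apply, one_apply] at this
    exact this
  have h3 := congrArg (fun z : ℤ => (z : ℂ)) h2
  simp only [Int.cast_sum] at h3
  rw [h3]
  split_ifs <;> simp

theorem BV2_char_sum {m : ℕ} (hm : 0 < m) (χ : DirichletCharacter ℂ m) (h1 : 1 < χ.conductor)
    (y : ℕ) : ‖∑ j ∈ Ioc 0 y, χ (j : ZMod m)‖ ≤ (m.divisors.card : ℝ) * χ.conductor := by
  have : NeZero m := ⟨hm.ne'⟩
  have : NeZero χ.conductor := ⟨by omega⟩
  have hne : χ.primitiveCharacter ≠ 1 := by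
    intro h
    have h2 := χ.primitiveCharacter_isPrimitive
    rw [DirichletCharacter.isPrimitive_def, h, DirichletCharacter.conductor_one] at h2
    omega
  have e1 : ∀ j : ℕ, χ (j : ZMod m) =
      ∑ e ∈ m.divisors, if e ∣ j then (moebius e : ℂ) * χ.primitiveCharacter (j : ZMod _) else 0 := by
    intro j
    rw [← sum_filter]
    have hset : m.divisors.filter (fun e => e ∣ j) = (Nat.gcd j m).divisors := by
      ext e
      rw [mem_filter, Nat.mem_divisors, Nat.mem_divisors, Nat.dvd_gcd_iff]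
      constructor
      · rintro ⟨⟨h1, h2⟩, h3⟩
        exact ⟨⟨h3, h1⟩, Nat.gcd_ne_zero_right hm.ne'⟩
      · rintro ⟨⟨h1, h2⟩, h3⟩
        exact ⟨⟨h2, hm.ne'⟩, h1⟩
    rw [hset, ← sum_mul, BV2_moebius]
    split_ifs with hg
    · rw [one_mul]
      have h3 := χ.primitiveCharacter_apply_of_isCoprime (a := (j : ℤ))
        (Nat.isCoprime_iff_coprime.mpr hg)
      simpa using h3.symm
    · rw [zero_mul]
      refine χ.map_nonunit ?_
      rw [ZMod.isUnit_iff_coprime]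
      exact hg
  have e2 : ∑ j ∈ Ioc 0 y, χ (j : ZMod m) = ∑ e ∈ m.divisors, (moebius e : ℂ) *
      ∑ i ∈ Ioc 0 (y / e), χ.primitiveCharacter ((e * i : ℕ) : ZMod _) := by
    rw [sum_congr rfl fun j _ => e1 j, sum_comm]
    refine sum_congr rfl fun e he => ?_
    have he0 : 0 < e := Nat.pos_of_mem_divisors he
    rw [← sum_filter, ← mul_sum]
    congr 1
    symm
    refine sum_bij (fun i _ => e * i) ?_ ?_ ?_ (fun _ _ => rfl)
    · intro i hi
      rw [mem_Ioc] at hi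
      rw [mem_filter, mem_Ioc]
      refine ⟨⟨Nat.mul_pos he0 hi.1, ?_⟩, dvd_mul_right _ _⟩
      have := (Nat.le_div_iff_mul_le he0).1 hi.2
      rwa [mul_comm]
    · intro i _ i' _ h
      exact Nat.eq_of_mul_eq_mul_left he0 h
    · intro j hj
      rw [mem_filter, mem_Ioc] at hj
      obtain ⟨⟨h0, hy⟩, i, rfl⟩ := hj
      refine ⟨i, ?_, rfl⟩
      rw [mem_Ioc, Nat.le_div_iff_mul_le he0]
      exact ⟨Nat.pos_of_mul_pos_left h0, by rwa [mul_comm]⟩
  rw [e2]
  refine (norm_sum_le _ _).trans ?_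
  calc ∑ e ∈ m.divisors, ‖(moebius e : ℂ) *
      ∑ i ∈ Ioc 0 (y / e), χ.primitiveCharacter ((e * i : ℕ) : ZMod _)‖
      ≤ ∑ e ∈ m.divisors, (χ.conductor : ℝ) := by
        refine sum_le_sum fun e _ => ?_
        rw [norm_mul]
        have hmu : ‖(moebius e : ℂ)‖ ≤ 1 := by
          have h4 : |(moebius e : ℤ)| ≤ 1 := abs_moebius_le_one
          rw [Complex.norm_intCast]
          exact_mod_cast h4
        calc _ ≤ 1 * (χ.conductor : ℝ) := mul_le_mul hmu
              (BV2_char_sum_mul_le _ _ hne e _) (norm_nonneg _) zero_le_one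
          _ = _ := one_mul _
    _ = _ := by rw [sum_const, nsmul_eq_mul]

theorem BV2 : BV2_stmt := by
  intro R m c hR hm
  refine ⟨fun n => ?_, fun k y => ?_⟩
  · unfold kp
    refine BV2_avg m hm _ _ 1 zero_le_one fun χ _ => ?_
    rw [norm_mul, RCLike.norm_conj]
    exact mul_le_one₀ (DirichletCharacter.norm_le_one χ _) (norm_nonneg _)
      (DirichletCharacter.norm_le_one χ _)
  · unfold kp
    rw [← mul_sum, ← Complex.re_sum, sum_comm]
    refine BV2_avg m hm _ _ _ (by positivity) fun χ hχ => ?_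
    rw [mem_filter] at hχ
    obtain ⟨-, h1, h2⟩ := hχ
    have e : ∑ j ∈ Ioc 0 y, (starRingEnd ℂ) (χ (c : ZMod m)) * χ ((k * j : ℕ) : ZMod m) =
        (starRingEnd ℂ) (χ (c : ZMod m)) * χ (k : ZMod m) * ∑ j ∈ Ioc 0 y, χ (j : ZMod m) := by
      rw [mul_sum]
      refine sum_congr rfl fun j _ => ?_
      rw [Nat.cast_mul, map_mul, mul_assoc]
    rw [e, norm_mul, norm_mul, RCLike.norm_conj]
    have h3 := BV2_char_sum hm χ (by omega) y
    have h4 : ‖χ (c : ZMod m)‖ * ‖χ (k : ZMod m)‖ ≤ 1 :=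
      mul_le_one₀ (DirichletCharacter.norm_le_one χ _) (norm_nonneg _)
        (DirichletCharacter.norm_le_one χ _)
    have h5 : (χ.conductor : ℝ) ≤ 2 * R := by exact_mod_cast h2
    calc _ ≤ 1 * ‖∑ j ∈ Ioc 0 y, χ (j : ZMod m)‖ :=
          mul_le_mul_of_nonneg_right h4 (norm_nonneg _)
      _ ≤ (m.divisors.card : ℝ) * χ.conductor := by rw [one_mul]; exact h3
      _ ≤ (m.divisors.card : ℝ) * (2 * R) := mul_le_mul_of_nonneg_left h5 (by positivity)
      _ = _ := by ring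

end GD
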